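import Pool.Agent.Work.MP_3fb46c_gt.Near

set_option autoImplicit false

open MeasureTheory Metric Filter Topology Matrix

namespace Pool.Agent.Results.MP_3fb46c_gt.HopfBifurcation

/-- Euclidean six-space. -/
abbrev R6 : Type := EuclideanSpace ℝ (Fin 6)

/-- The matrix of the orthogonal projection onto the tangent space of the unit sphere at `x`. -/
def proj (x : R6) : Matrix (Fin 6) (Fin 6) ℝ := 1 - Matrix.of fun i j => x i * x j

/-- The Jacobian matrix. -/
noncomputable def jac (σ : R6 → R6) (x : R6) : Matrix (Fin 6) (Fin 6) ℝ :=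
  Matrix.of fun i j => fderiv ℝ σ x (EuclideanSpace.single j 1) i

/-- The covariant derivative of a tangent field at `x`, extended by zero on the normal line. -/
noncomputable def nabla (σ : R6 → R6) (x : R6) : Matrix (Fin 6) (Fin 6) ℝ :=
  proj x * jac σ x * proj x

/-- The volume of a tangent field on the unit sphere. -/
noncomputable def vol (σ : R6 → R6) : ℝ :=
  ∫ x : sphere (0 : R6) 1, Real.sqrt (1 + (nabla σ x)ᵀ * nabla σ x).det
    ∂(volume : Measure R6).toSphere

/-- The unit Hopf field of the standard complex structure. -/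
def hopf (x : R6) : R6 := !₂[-x 1, x 0, -x 3, x 2, -x 5, x 4]

/-- On the unit sphere the field is tangent and has length `r`. -/
def TangentLen (r : ℝ) (σ : R6 → R6) : Prop :=
  ∀ x ∈ sphere (0 : R6) 1, ‖σ x‖ = r ∧ inner ℝ x (σ x) = 0

/-- The field is a critical point of the volume among smooth tangent fields of length `r`. -/
def Critical (r : ℝ) (σ : R6 → R6) : Prop :=
  ∀ Φ : ℝ → R6 → R6, ContDiff ℝ ((⊤ : ℕ∞) : WithTop ℕ∞) (fun q : ℝ × R6 => Φ q.1 q.2) →
    (∀ x ∈ sphere (0 : R6) 1, Φ 0 x = σ x) → (∀ᶠ t : ℝ in 𝓝 0, TangentLen r (Φ t)) →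
    HasDerivAt (fun t : ℝ => vol (Φ t)) 0 0

/-- On the five-sphere there are smooth fields of constant length `r`, critical for the volume
among fields of length `r`, that are not restrictions of linear maps, with `r` arbitrarily close
to one and the field arbitrarily close to the unit Hopf field. -/
theorem result (ε : ℝ) (hε : 0 < ε) : ∃ (r : ℝ) (σ : R6 → R6), 0 < r ∧ |r - 1| < ε ∧
    ContDiff ℝ ((⊤ : ℕ∞) : WithTop ℕ∞) σ ∧ TangentLen r σ ∧ Critical r σ ∧
    (∀ x ∈ sphere (0 : R6) 1, ‖σ x - hopf x‖ < ε) ∧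
    ∀ A : R6 →L[ℝ] R6, ¬ ∀ x ∈ sphere (0 : R6) 1, σ x = A x := by
  obtain ⟨r, σ, h1, h2, h3, h4, h5, h6⟩ := Pool.Agent.Work.MP_3fb46c_gt.exists_nonHopf_near hε
  refine ⟨r, σ, h1, h2, h3, fun x hx => ⟨(h4 x hx).1, (h4 x hx).2.1⟩, fun Φ k1 k2 k3 => ?_,
    fun x hx => (h4 x hx).2.2, h6⟩
  have e : ∀ (φ : R6 → R6) (x : R6),
      Pool.Agent.Work.MP_3fb46c_gt.mat (fderiv ℝ φ x) = jac φ x := fun φ x => by
    ext i j
    exact Pool.Agent.Work.MP_3fb46c_gt.mat_apply _ i j
  have k4 := h5 Φ k1 k2 k3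
  simp only [Pool.Agent.Work.MP_3fb46c_gt.volInt_eq, e] at k4
  exact k4

end Pool.Agent.Results.MP_3fb46c_gt.HopfBifurcation
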